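import Pool.Agent.helper51.PC.Spec

/-!
# Row pc:TRF (MP_74cfa5_ag): differential forms of the fixed field as elements of `K`
-/

set_option autoImplicit false
set_option linter.style.haveILetI false
set_option linter.unusedSectionVars false

namespace Pool.Agent.PC

open MvPolynomial
open scoped TensorProduct

universe u

section core

variable (k F K : Type u) [Field k] [Field F] [Field K] [Algebra k F] [Algebra k K] [Algebra F K]
  [IsScalarTower k F K] {n : ℕ} (D : Fin n → Derivation k K K)

/-- the linear map `df ↦ (D_j (ι f))_j` -/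
noncomputable def TRF_L : (Ω[F⁄k]) →ₗ[F] (Fin n → K) :=
  LinearMap.pi fun j => ((D j).compAlgebraMap F).liftKaehlerDifferential

theorem TRF_L_D (f : F) (j : Fin n) : TRF_L k F K D (KaehlerDifferential.D k F f) j = D j (algebraMap F K f) := by
  unfold TRF_L
  rw [LinearMap.pi_apply, Derivation.liftKaehlerDifferential_comp_D]
  rfl

/-- the alternating map -/
noncomputable def TRF_alt : (Ω[F⁄k]) [⋀^Fin n]→ₗ[F] K where
  toFun ω := Matrix.det (Matrix.of fun i => TRF_L k F K D (ω i))
  map_update_add' := by
    intro inst ω i x y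
    obtain rfl : inst = instDecidableEqFin n := Subsingleton.elim _ _
    have h : ∀ z, (Matrix.of fun l => TRF_L k F K D (Function.update ω i z l)) =
        (Matrix.of fun l => TRF_L k F K D (ω l)).updateRow i (TRF_L k F K D z) := by
      intro z
      ext l j
      by_cases hl : l = i
      · subst hl
        simp [Matrix.updateRow_self]
      · simp [Matrix.updateRow_ne hl, Function.update_of_ne hl]
    rw [h, h, h, map_add, Matrix.det_updateRow_add]
  map_update_smul' := by
    intro inst ω i c x
    obtain rfl : inst = instDecidableEqFin n := Subsingleton.elim _ _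
    have h : ∀ z, (Matrix.of fun l => TRF_L k F K D (Function.update ω i z l)) =
        (Matrix.of fun l => TRF_L k F K D (ω l)).updateRow i (TRF_L k F K D z) := by
      intro z
      ext l j
      by_cases hl : l = i
      · subst hl
        simp [Matrix.updateRow_self]
      · simp [Matrix.updateRow_ne hl, Function.update_of_ne hl]
    have h2 : TRF_L k F K D (c • x) = algebraMap F K c • TRF_L k F K D x := by
      rw [map_smul]
      ext j
      rw [Pi.smul_apply, Pi.smul_apply, Algebra.smul_def, smul_eq_mul]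
    rw [h, h, h2, Matrix.det_updateRow_smul, Algebra.smul_def]
  map_eq_zero_of_eq' := by
    intro ω i j hij hne
    exact Matrix.det_zero_of_row_eq hne (by ext l; simp [hij])

theorem TRF_alt_D (f : Fin n → F) : TRF_alt k F K D (fun i => KaehlerDifferential.D k F (f i)) =
    JJ D (fun i => algebraMap F K (f i)) := by
  change Matrix.det (Matrix.of fun i => TRF_L k F K D (KaehlerDifferential.D k F (f i))) = _
  unfold JJ
  congr 1
  ext i j
  simp only [Matrix.of_apply]
  exact TRF_L_D k F K D (f i) j

/-- the linear map on the exterior power -/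
noncomputable def TRF_P : Form k F n →ₗ[F] K := exteriorPower.alternatingMapLinearEquiv (TRF_alt k F K D)

theorem TRF_P_dd (f : Fin n → F) : TRF_P k F K D (dd k f) = JJ D (fun i => algebraMap F K (f i)) := by
  unfold TRF_P dd
  rw [exteriorPower.alternatingMapLinearEquiv_apply_ιMulti, TRF_alt_D]

/-- there are `f` with nonzero Jacobian -/
theorem TRF_ne [Algebra.IsSeparable F K] (hn : 0 < n) (e : Module.Basis (Fin n) K (Ω[K⁄k])) (x : Fin n → K)
    (he : ∀ i, e i = KaehlerDifferential.D k K (x i)) (hD : ∀ i j, D i (x j) = if i = j then 1 else 0) :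
    Module.finrank F (Ω[F⁄k]) = n ∧ ∃ f : Fin n → F, JJ D (fun i => algebraMap F K (f i)) ≠ 0 := by
  haveI : Algebra.FormallyEtale F K := Algebra.FormallyEtale.of_isSeparable F K
  have hfr : Module.finrank F (Ω[F⁄k]) = n := by
    have h1 : Module.finrank K (K ⊗[F] Ω[F⁄k]) = Module.finrank F (Ω[F⁄k]) := Module.finrank_baseChange
    rw [← h1, (KaehlerDifferential.tensorKaehlerEquivOfFormallyEtale k F K).finrank_eq,
      Module.finrank_eq_card_basis e, Fintype.card_fin]
  refine ⟨hfr, ?_⟩
  haveI : Module.Finite F (Ω[F⁄k]) := Module.finite_of_finrank_pos (by rw [hfr]; exact hn)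
  have hspan : ⊤ ≤ Submodule.span F (Set.range (KaehlerDifferential.D k F)) :=
    (KaehlerDifferential.span_range_derivation k F).ge
  let b0 := Module.Basis.ofSpan hspan
  haveI : Fintype ((linearIndepOn_empty F id).extend (Set.empty_subset (Set.range (KaehlerDifferential.D k F)))) :=
    FiniteDimensional.fintypeBasisIndex b0
  have hc : Fintype.card ((linearIndepOn_empty F id).extend (Set.empty_subset (Set.range (KaehlerDifferential.D k F)))) =
      Fintype.card (Fin n) := by
    rw [← Module.finrank_eq_card_basis b0, hfr, Fintype.card_fin]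
  let b := b0.reindex (Fintype.equivOfCardEq hc)
  have hb : ∀ i, ∃ f : F, KaehlerDifferential.D k F f = b i := by
    intro i
    have h1 : b i ∈ Set.range b0 := by
      rw [Module.Basis.reindex_apply]
      exact Set.mem_range_self _
    exact Module.Basis.ofSpan_subset hspan h1
  choose f hf using hb
  refine ⟨f, ?_⟩
  -- the basis of `K ^ n`
  let B : Module.Basis (Fin n) K (Fin n → K) := ((Algebra.TensorProduct.basis K b).map
    (KaehlerDifferential.tensorKaehlerEquivOfFormallyEtale k F K)).map e.equivFun
  have hL : (LinearMap.pi fun j => (D j).liftKaehlerDifferential : Ω[K⁄k] →ₗ[K] (Fin n → K)) = e.equivFun.toLinearMap := by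
    refine e.ext fun i => ?_
    ext j
    rw [LinearMap.pi_apply, he i, Derivation.liftKaehlerDifferential_comp_D, ← he i]
    rw [LinearEquiv.coe_coe, Module.Basis.equivFun_self, hD]
    simp only [eq_comm]
  have hB : ∀ i j, B i j = D j (algebraMap F K (f i)) := by
    intro i j
    have h1 : B i = e.equivFun (KaehlerDifferential.D k K (algebraMap F K (f i))) := by
      change e.equivFun ((KaehlerDifferential.tensorKaehlerEquivOfFormallyEtale k F K) ((Algebra.TensorProduct.basis K b) i)) = _
      rw [Algebra.TensorProduct.basis_apply, ← hf i, KaehlerDifferential.tensorKaehlerEquivOfFormallyEtale_apply,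
        KaehlerDifferential.mapBaseChange_tmul, one_smul, KaehlerDifferential.map_D]
    have h2 := LinearMap.congr_fun hL (KaehlerDifferential.D k K (algebraMap F K (f i)))
    rw [h1]
    have h3 := congrFun h2 j
    rw [LinearMap.pi_apply, Derivation.liftKaehlerDifferential_comp_D] at h3
    exact h3.symm
  have hli := B.linearIndependent
  have h4 : JJ D (fun i => algebraMap F K (f i)) = Matrix.det (Matrix.of fun i j => B i j) := by
    unfold JJ
    congr 1
    ext i j
    simp only [Matrix.of_apply]
    exact (hB i j).symm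
  rw [h4]
  have h5 : IsUnit (Matrix.of fun i j => B i j) := by
    rw [← Matrix.linearIndependent_rows_iff_isUnit]
    exact hli
  exact ((Matrix.isUnit_iff_isUnit_det _).mp h5).ne_zero

theorem TRF_core [Algebra.IsSeparable F K] (hn : 0 < n) (e : Module.Basis (Fin n) K (Ω[K⁄k])) (x : Fin n → K)
    (he : ∀ i, e i = KaehlerDifferential.D k K (x i)) (hD : ∀ i j, D i (x j) = if i = j then 1 else 0)
    (hJ : ∀ f : Fin n → F, ∃ g : F, algebraMap F K g = JJ D (fun i => algebraMap F K (f i))) :
    ∃ ω : Form k F n, ω ≠ 0 ∧ ∀ (O : ValuationSubring F) (y : F),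
      y • ω ∈ Reg k n O ↔ algebraMap F K y ∈ AddSubgroup.closure {z : K | ∃ c ∈ O, ∃ f : Fin n → F,
        (∀ i, f i ∈ O) ∧ z = algebraMap F K c * JJ D fun i => algebraMap F K (f i)} := by
  obtain ⟨hfr, f, hf⟩ := TRF_ne k F K D hn e x he hD
  obtain ⟨g, hg⟩ := hJ f
  haveI : Module.Finite F (Ω[F⁄k]) := Module.finite_of_finrank_pos (by rw [hfr]; exact hn)
  have hg0 : algebraMap F K g ≠ 0 := by rw [hg]; exact hf
  have h1 : TRF_P k F K D (g⁻¹ • dd k f) = 1 := by
    rw [map_smul, TRF_P_dd, ← hg, Algebra.smul_def, map_inv₀, inv_mul_cancel₀ hg0]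
  have hω : g⁻¹ • dd k f ≠ 0 := by
    intro h
    rw [h, map_zero] at h1
    exact zero_ne_one h1
  have hdim : Module.finrank F (Form k F n) = 1 := by
    rw [exteriorPower.finrank_eq, hfr, Nat.choose_self]
  have hinj : Function.Injective (TRF_P k F K D) := by
    rw [injective_iff_map_eq_zero]
    intro θ hθ
    obtain ⟨c, hc⟩ := (finrank_eq_one_iff_of_nonzero' _ hω).mp hdim θ
    rw [← hc, map_smul, h1, Algebra.smul_def, mul_one] at hθ
    have h2 : c = 0 := by
      apply (algebraMap F K).injective
      rw [hθ, map_zero]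
    rw [← hc, h2, zero_smul]
  refine ⟨g⁻¹ • dd k f, hω, ?_⟩
  intro O y
  have h3 : TRF_P k F K D (y • g⁻¹ • dd k f) = algebraMap F K y := by
    rw [map_smul, h1, Algebra.smul_def, mul_one]
  rw [← h3]
  have h4 : (AddSubgroup.closure {z : K | ∃ c ∈ O, ∃ f : Fin n → F,
        (∀ i, f i ∈ O) ∧ z = algebraMap F K c * JJ D fun i => algebraMap F K (f i)}) =
      (Reg k n O).map (TRF_P k F K D).toAddMonoidHom := by
    unfold Reg
    rw [AddMonoidHom.map_closure]
    congr 1
    ext z
    constructor
    · rintro ⟨c, hc, a, ha, rfl⟩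
      refine ⟨c • dd k a, ⟨c, hc, a, ha, rfl⟩, ?_⟩
      change TRF_P k F K D (c • dd k a) = _
      rw [map_smul, TRF_P_dd, Algebra.smul_def]
    · rintro ⟨_, ⟨c, hc, a, ha, rfl⟩, rfl⟩
      refine ⟨c, hc, a, ha, ?_⟩
      change TRF_P k F K D (c • dd k a) = _
      rw [map_smul, TRF_P_dd, Algebra.smul_def]
  rw [h4]
  constructor
  · intro h
    exact ⟨_, h, rfl⟩
  · rintro ⟨θ, hθ, h5⟩
    have h6 : θ = y • g⁻¹ • dd k f := hinj h5
    rw [← h6]
    exact hθ

end core

/-- the basis of the differential forms of `K` -/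
theorem TRF_basis (k : Type u) [Field k] (n : ℕ) : ∃ e : Module.Basis (Fin n) (KK k n) (Ω[KK k n⁄k]),
    ∀ i, e i = KaehlerDifferential.D k (KK k n) (xx k n i) := by
  haveI : Algebra.FormallyEtale (AA k n) (KK k n) := Algebra.FormallyEtale.of_isLocalization (nonZeroDivisors (AA k n))
  refine ⟨(Algebra.TensorProduct.basis (KK k n) (KaehlerDifferential.mvPolynomialBasis k (Fin n))).map
    (KaehlerDifferential.tensorKaehlerEquivOfFormallyEtale k (AA k n) (KK k n)), fun i => ?_⟩
  rw [Module.Basis.map_apply, Algebra.TensorProduct.basis_apply, KaehlerDifferential.mvPolynomialBasis_apply,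
    KaehlerDifferential.tensorKaehlerEquivOfFormallyEtale_apply,
    KaehlerDifferential.mapBaseChange_tmul, one_smul, KaehlerDifferential.map_D]
  rfl

theorem TRF (hSGK : SGK_stmt.{u}) (hFIX : FIX_stmt.{u}) (hJIN : JIN_stmt.{u}) (hSEP : SEP_stmt.{u}) : TRF_stmt.{u} := by
  intro k _ n d p hnum hp D hD
  obtain ⟨hs1, s, hs2, hs3, hs4⟩ := hSGK k n d p hnum hp
  letI : Algebra (FF k n d) (KK k n) := (io k n d).toRingHom.toAlgebra
  haveI : IsScalarTower k (FF k n d) (KK k n) := IsScalarTower.of_algebraMap_eq fun x => ((io k n d).commutes x).symm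
  haveI : Algebra.IsSeparable (FF k n d) (KK k n) := (hSEP k n d p hnum hp).2
  obtain ⟨e, he⟩ := TRF_basis k n
  have hn : 0 < n := by
    have h1 := hnum.2.1
    have h2 := hnum.2.2.1
    omega
  have hfix := hFIX k n d p hnum hs1 s hs2
  have h3 := TRF_core k (FF k n d) (KK k n) D hn e (xx k n) he hD (by
    intro f
    obtain ⟨g, hg⟩ := (hfix (JJ D fun i => io k n d (f i))).mp
      (hJIN k n d D hD s hs2 hs4 _ (fun i => (hfix _).mpr ⟨f i, rfl⟩))
    exact ⟨g, hg⟩)
  exact h3

end Pool.Agent.PC
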